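import Pool.Agent.Run7.h775.Knight.Count

/-!
# Domino tilings of the Aztec diamond with a central knight's-move pair removed

The cell `(a, b) : ℤ × ℤ` stands for the unit square with centre `(a + 1/2, b + 1/2)`.
-/

namespace Pool.Agent.Results.MP_b90a94_co.KnightMoveAztec

open Pool.Agent.Helper848 Run7.h775.Knight

/-- The normalised central binomial coefficient `binom(2m, m) / 4^m`. -/
def a (m : ℕ) : ℚ := (Nat.centralBinom m : ℚ) / 4 ^ m

/-- The cells of the Aztec diamond `A_n`: the cells `(a, b)` whose centre satisfies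
`|a + 1/2| + |b + 1/2| ≤ n` (all of them lie in the box `[-n, n] × [-n, n]`). -/
noncomputable def A (n : ℕ) : Finset (ℤ × ℤ) :=
  (Finset.Icc (-(n : ℤ)) n ×ˢ Finset.Icc (-(n : ℤ)) n).filter fun p =>
    |(p.1 : ℚ) + 1 / 2| + |(p.2 : ℚ) + 1 / 2| ≤ n

/-- The region `D_n`: `A_n` without the two cells with centres `(-1/2, -1/2)` and `(1/2, 3/2)`. -/
noncomputable def D (n : ℕ) : Finset (ℤ × ℤ) := A n \ {(-1, -1), (0, 1)}

/-- The number of domino tilings of `D_n`. -/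
noncomputable def T (n : ℕ) : ℕ := numTilings (D n)

/-- auxiliary description of `D_n` -/
def IsKnightRegion (n : ℕ) (R : Finset (ℤ × ℤ)) : Prop :=
  ∀ p : ℤ × ℤ, p ∈ R ↔
    |(p.1 : ℚ) + 1 / 2| + |(p.2 : ℚ) + 1 / 2| ≤ n ∧ p ≠ (-1, -1) ∧ p ≠ (0, 1)

theorem knightRegion_spec (n : ℕ) : IsKnightRegion n (knightRegion n) := by
  intro p
  unfold knightRegion
  rw [Finset.mem_sdiff, mem_aztec, Finset.mem_insert, Finset.mem_singleton, not_or]
  refine and_congr ?_ Iff.rfl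
  rcases abs_cases ((p.1 : ℚ) + 1 / 2) with ⟨h1, h1'⟩ | ⟨h1, h1'⟩ <;>
  rcases abs_cases ((p.2 : ℚ) + 1 / 2) with ⟨h2, h2'⟩ | ⟨h2, h2'⟩ <;>
  rw [h1, h2]
  · have e1 : 0 ≤ 2 * p.1 + 1 := by
      have : (0 : ℚ) ≤ ((2 * p.1 + 1 : ℤ) : ℚ) := by push_cast; linarith
      exact_mod_cast this
    have e2 : 0 ≤ 2 * p.2 + 1 := by
      have : (0 : ℚ) ≤ ((2 * p.2 + 1 : ℤ) : ℚ) := by push_cast; linarith
      exact_mod_cast this
    constructor
    · rintro ⟨k1, k2, k3, k4⟩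
      have : ((p.1 + p.2 + 1 : ℤ) : ℚ) ≤ ((n : ℤ) : ℚ) := by exact_mod_cast k2
      push_cast at this; linarith
    · intro hk
      have : ((p.1 + p.2 + 1 : ℤ) : ℚ) ≤ ((n : ℤ) : ℚ) := by push_cast; linarith
      have : p.1 + p.2 + 1 ≤ n := by exact_mod_cast this
      omega
  · have e1 : 0 ≤ 2 * p.1 + 1 := by
      have : (0 : ℚ) ≤ ((2 * p.1 + 1 : ℤ) : ℚ) := by push_cast; linarith
      exact_mod_cast this
    have e2 : 2 * p.2 + 1 < 0 := by
      have : ((2 * p.2 + 1 : ℤ) : ℚ) < 0 := by push_cast; linarith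
      exact_mod_cast this
    constructor
    · rintro ⟨k1, k2, k3, k4⟩
      have : ((p.1 - p.2 : ℤ) : ℚ) ≤ ((n : ℤ) : ℚ) := by exact_mod_cast k4
      push_cast at this; linarith
    · intro hk
      have : ((p.1 - p.2 : ℤ) : ℚ) ≤ ((n : ℤ) : ℚ) := by push_cast; linarith
      have : p.1 - p.2 ≤ n := by exact_mod_cast this
      omega
  · have e1 : 2 * p.1 + 1 < 0 := by
      have : ((2 * p.1 + 1 : ℤ) : ℚ) < 0 := by push_cast; linarith
      exact_mod_cast this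
    have e2 : 0 ≤ 2 * p.2 + 1 := by
      have : (0 : ℚ) ≤ ((2 * p.2 + 1 : ℤ) : ℚ) := by push_cast; linarith
      exact_mod_cast this
    constructor
    · rintro ⟨k1, k2, k3, k4⟩
      have : ((-(n : ℤ) : ℤ) : ℚ) ≤ ((p.1 - p.2 : ℤ) : ℚ) := by exact_mod_cast k3
      push_cast at this; linarith
    · intro hk
      have : ((-(n : ℤ) : ℤ) : ℚ) ≤ ((p.1 - p.2 : ℤ) : ℚ) := by push_cast; linarith
      have : -(n : ℤ) ≤ p.1 - p.2 := by exact_mod_cast this
      omega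
  · have e1 : 2 * p.1 + 1 < 0 := by
      have : ((2 * p.1 + 1 : ℤ) : ℚ) < 0 := by push_cast; linarith
      exact_mod_cast this
    have e2 : 2 * p.2 + 1 < 0 := by
      have : ((2 * p.2 + 1 : ℤ) : ℚ) < 0 := by push_cast; linarith
      exact_mod_cast this
    constructor
    · rintro ⟨k1, k2, k3, k4⟩
      have : ((-(n : ℤ) : ℤ) : ℚ) ≤ ((p.1 + p.2 + 1 : ℤ) : ℚ) := by exact_mod_cast k1
      push_cast at this; linarith
    · intro hk
      have : ((-(n : ℤ) : ℤ) : ℚ) ≤ ((p.1 + p.2 + 1 : ℤ) : ℚ) := by push_cast; linarith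
      have : -(n : ℤ) ≤ p.1 + p.2 + 1 := by exact_mod_cast this
      omega

theorem D_spec (n : ℕ) : IsKnightRegion n (D n) := by
  intro p
  unfold D A
  rw [Finset.mem_sdiff, Finset.mem_filter, Finset.mem_product, Finset.mem_Icc, Finset.mem_Icc,
    Finset.mem_insert, Finset.mem_singleton, not_or]
  refine and_congr ⟨fun h => h.2, fun h => ⟨?_, h⟩⟩ Iff.rfl
  have h1 := abs_nonneg ((p.1 : ℚ) + 1 / 2)
  have h2 := abs_nonneg ((p.2 : ℚ) + 1 / 2)
  have h3 : |(p.1 : ℚ) + 1 / 2| ≤ n := by linarith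
  have h4 : |(p.2 : ℚ) + 1 / 2| ≤ n := by linarith
  rw [abs_le] at h3 h4
  have key : ∀ z : ℤ, -(n : ℚ) ≤ (z : ℚ) + 1 / 2 ∧ (z : ℚ) + 1 / 2 ≤ n → -(n : ℤ) ≤ z ∧ z ≤ n := by
    intro z hz
    constructor
    · have : ((-(n : ℤ) : ℤ) : ℚ) < ((z + 1 : ℤ) : ℚ) := by push_cast; linarith
      have : -(n : ℤ) < z + 1 := by exact_mod_cast this
      omega
    · have : ((z : ℤ) : ℚ) ≤ ((n : ℤ) : ℚ) := by push_cast; linarith
      exact_mod_cast this
  exact ⟨key _ h3, key _ h4⟩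

theorem D_eq (n : ℕ) : D n = knightRegion n := by
  ext p
  rw [D_spec n p, knightRegion_spec n p]

/-- **Explicit formula for `T(n)`** for every `n ≥ 2`, in the four residue classes modulo 4,
with `a m = binom(2m, m) / 4^m`; the powers of two are `2^(n(n+1)/2)`. -/
theorem result :
    (∀ m ≥ 1, (T (4 * m) : ℚ) =
      2 ^ (2 * m * (4 * m + 1)) * (m / 2 * a m ^ 2 * (1 + a m ^ 2))) ∧
    (∀ m ≥ 1, (T (4 * m + 1) : ℚ) =
      2 ^ ((4 * m + 1) * (2 * m + 1)) * ((2 * m + 1) / 4 * a m ^ 2 * (1 - a m ^ 2))) ∧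
    (∀ m, (T (4 * m + 2) : ℚ) =
      2 ^ ((2 * m + 1) * (4 * m + 3)) * ((2 * m + 1) / 4 * a m ^ 2)) ∧
    (∀ m, (T (4 * m + 3) : ℚ) =
      2 ^ ((4 * m + 3) * (2 * m + 2)) * ((m + 1) / 2 * a (m + 1) ^ 2)) := by
  unfold T
  refine ⟨fun m hm => ?_, fun m hm => ?_, fun m => ?_, fun m => ?_⟩
  · rw [D_eq, numTilings_knight _ (by omega), val0]
    rw [show 4 * m * (4 * m + 1) / 2 = 2 * m * (4 * m + 1) by
      rw [show 4 * m * (4 * m + 1) = 2 * (2 * m * (4 * m + 1)) by ring,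
        Nat.mul_div_cancel_left _ (by norm_num)]]
    rfl
  · rw [D_eq, numTilings_knight _ (by omega), val1]
    rw [show (4 * m + 1) * (4 * m + 1 + 1) / 2 = (4 * m + 1) * (2 * m + 1) by
      rw [show (4 * m + 1) * (4 * m + 1 + 1) = 2 * ((4 * m + 1) * (2 * m + 1)) by ring,
        Nat.mul_div_cancel_left _ (by norm_num)]]
    rfl
  · rw [D_eq, numTilings_knight _ (by omega), val2]
    rw [show (4 * m + 2) * (4 * m + 2 + 1) / 2 = (2 * m + 1) * (4 * m + 3) by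
      rw [show (4 * m + 2) * (4 * m + 2 + 1) = 2 * ((2 * m + 1) * (4 * m + 3)) by ring,
        Nat.mul_div_cancel_left _ (by norm_num)]]
    rfl
  · rw [D_eq, numTilings_knight _ (by omega), val3]
    rw [show (4 * m + 3) * (4 * m + 3 + 1) / 2 = (4 * m + 3) * (2 * m + 2) by
      rw [show (4 * m + 3) * (4 * m + 3 + 1) = 2 * ((4 * m + 3) * (2 * m + 2)) by ring,
        Nat.mul_div_cancel_left _ (by norm_num)]]
    rfl

end Pool.Agent.Results.MP_b90a94_co.KnightMoveAztec
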